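import Mathlib

set_option autoImplicit false

open Set MeasureTheory ProbabilityTheory Real
open scoped ENNReal NNReal

namespace Pool.Agent.Results.MP_31abd3_an.Counter

/-- The polar function. -/
noncomputable def polar (g : ℝ → ℝ≥0∞) (y : ℝ) : ℝ≥0∞ :=
  ⨅ (x : ℝ) (_ : 0 < g x), ENNReal.ofReal (exp (-(x * y))) / g x

/-- The Fokker-Planck evolution at time `t > 0` (Mehler's formula). -/
noncomputable def flow (f : ℝ → ℝ≥0∞) (t x : ℝ) : ℝ≥0∞ :=
  ∫⁻ u, f u * gaussianPDF (exp (-t) * u) (1 - exp (-2 * t)).toNNReal x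

/-- The functional volume product. -/
noncomputable def vp (g : ℝ → ℝ≥0∞) : ℝ≥0∞ := (∫⁻ x, g x) * ∫⁻ y, polar g y

lemma mass (f : ℝ → ℝ≥0∞) (hf : Measurable f) (t : ℝ) (ht : 0 < t) :
    ∫⁻ x, flow f t x = ∫⁻ x, f x := by
  have hv : (1 - exp (-2 * t)).toNNReal ≠ 0 := by
    have : exp (-2 * t) < 1 := exp_lt_one_iff.2 (by linarith)
    simpa using this
  unfold flow
  rw [lintegral_lintegral_swap]
  · refine lintegral_congr fun u => ?_
    rw [lintegral_const_mul _ (measurable_gaussianPDF _ _), lintegral_gaussianPDF_eq_one _ hv, mul_one]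
  · refine Measurable.aemeasurable ?_
    unfold gaussianPDF gaussianPDFReal Function.uncurry
    fun_prop

lemma flow_ind (S : Set ℝ) (hS : MeasurableSet S) (t x : ℝ) : flow (S.indicator 1) t x =
    ∫⁻ u in S, gaussianPDF (exp (-t) * u) (1 - exp (-2 * t)).toNNReal x := by
  rw [flow, ← lintegral_indicator hS]
  refine lintegral_congr fun u => ?_
  by_cases h : u ∈ S <;> simp [h]

lemma pdf_le (μ x y : ℝ) (v : ℝ≥0) (hv : (v : ℝ) = 3 / 4) (hy : y ^ 2 ≤ 4) :
    gaussianPDFReal μ v x ≤ exp (-(x * y)) * exp (μ * y + 3 / 2) := by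
  rw [gaussianPDFReal, hv, ← exp_add]
  have h1 : 1 ≤ √(2 * π * (3 / 4)) := one_le_sqrt.2 (by linarith [pi_gt_three])
  have h2 : (√(2 * π * (3 / 4)))⁻¹ ≤ 1 := inv_le_one_of_one_le₀ h1
  refine (mul_le_of_le_one_left (exp_pos _).le h2).trans (exp_le_exp.2 ?_)
  rw [div_le_iff₀ (by norm_num)]
  nlinarith [sq_nonneg (x - μ - 3 / 4 * y)]

lemma pdf_ge (μ x : ℝ) (v : ℝ≥0) (hv : 3 / 4 ≤ (v : ℝ)) (hv1 : (v : ℝ) ≤ 1) (hμ : μ ^ 2 ≤ 1) :
    3⁻¹ * exp (-2 * (x ^ 2 + 1)) ≤ gaussianPDFReal μ v x := by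
  rw [gaussianPDFReal]
  have h0 : 0 < √(2 * π * v) := sqrt_pos.2 (by have := pi_pos; positivity)
  have h1 : √(2 * π * v) ≤ 3 := sqrt_le_iff.2 ⟨by norm_num, by nlinarith [pi_lt_four, pi_pos]⟩
  gcongr
  rw [le_div_iff₀ (by linarith)]
  nlinarith [sq_nonneg (x + μ), sq_nonneg x]

lemma polar_ge (g : ℝ → ℝ≥0∞) (y k : ℝ) (hk : 0 < k)
    (h : ∀ x, g x ≤ ENNReal.ofReal (exp (-(x * y)) * k)) : ENNReal.ofReal k⁻¹ ≤ polar g y := by
  refine le_iInf₂ fun x hx => ?_
  rw [ENNReal.le_div_iff_mul_le (Or.inl hx.ne') (Or.inr ENNReal.ofReal_ne_top)]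
  refine (mul_le_mul_right (h x) _).trans (le_of_eq ?_)
  rw [← ENNReal.ofReal_mul (by positivity)]
  congr 1
  field_simp

lemma polar_le (g : ℝ → ℝ≥0∞) (x y k : ℝ) (hk : 0 < k) (h : ENNReal.ofReal k ≤ g x) :
    polar g y ≤ ENNReal.ofReal (exp (-(x * y)) / k) := by
  refine (iInf₂_le x ((ENNReal.ofReal_pos.2 hk).trans_le h)).trans ?_
  rw [ENNReal.ofReal_div_of_pos hk]
  exact ENNReal.div_le_div_left h _

lemma polar_ind (S : Set ℝ) (R : ℝ) (h1 : R ∈ S) (h2 : -R ∈ S) (h3 : ∀ x ∈ S, |x| ≤ R) (y : ℝ) :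
    polar (S.indicator 1) y = ENNReal.ofReal (exp (-(R * |y|))) := by
  refine le_antisymm ?_ (le_iInf₂ fun x hx => ?_)
  · rcases le_total 0 y with hy | hy
    · simpa [abs_of_nonneg hy] using polar_le (S.indicator 1) R y 1 one_pos (by simp [h1])
    · simpa [abs_of_nonpos hy] using polar_le (S.indicator 1) (-R) y 1 one_pos (by simp [h2])
  · have hx' : x ∈ S := by
      by_contra h
      simp [h] at hx
    simp only [indicator_of_mem hx', Pi.one_apply, div_one]
    refine ENNReal.ofReal_le_ofReal (exp_le_exp.2 (neg_le_neg ?_))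
    calc x * y ≤ |x| * |y| := by rw [← abs_mul]; exact le_abs_self _
      _ ≤ _ := by gcongr; exact h3 x hx'

lemma decay (R y : ℝ) (hR : 2 ≤ R) : (1 + |y|) * exp (-(R * |y|)) ≤ 2 * (1 + y ^ 2)⁻¹ := by
  have h0 := abs_nonneg y
  have h1 := quadratic_le_exp_of_nonneg h0
  have h2 : exp |y| * exp |y| ≤ exp (R * |y|) := by
    rw [← exp_add]
    exact exp_le_exp.2 (by nlinarith)
  rw [sq_abs] at h1
  have h3 : (1 + |y|) * (1 + y ^ 2 / 2) ≤ exp |y| * exp |y| :=
    mul_le_mul (by nlinarith [sq_nonneg y]) (by linarith) (by positivity) (exp_pos _).le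
  rw [exp_neg, ← div_eq_mul_inv, ← div_eq_mul_inv, div_le_div_iff₀ (exp_pos _) (by positivity)]
  nlinarith

theorem result : ∃ a b c d : ℝ, a < b ∧ b < c ∧ c < d ∧
    ∀ f : ℝ → ℝ≥0∞, f = (Icc a b ∪ Icc c d).indicator 1 →
      0 < ∫⁻ y, polar f y ∧ ∫⁻ y, polar f y < ⊤ ∧
      Integrable (fun y => y * (polar f y).toReal) ∧ ∫ y, y * (polar f y).toReal = 0 ∧
      ∃ t₁ t₂ : ℝ, 0 < t₁ ∧ t₁ < t₂ ∧ vp (flow f t₂) < vp (flow f t₁) := by
  have hK : ∫⁻ y, ENNReal.ofReal (3 * exp 2 * exp (-8⁻¹ * y ^ 2)) < ⊤ :=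
    ((integrable_exp_neg_mul_sq (by norm_num)).const_mul _).lintegral_lt_top
  set K := ∫⁻ y, ENNReal.ofReal (3 * exp 2 * exp (-8⁻¹ * y ^ 2)) with hKdef
  obtain ⟨R, hR, hRK⟩ : ∃ R : ℝ, 3 ≤ R ∧ K < ENNReal.ofReal (2 * exp (2 - R / 2))⁻¹ := by
    refine ⟨4 * K.toReal + 4, by linarith [K.toReal_nonneg], ?_⟩
    rw [ENNReal.lt_ofReal_iff_toReal_lt hK.ne, mul_inv, ← exp_neg]
    have := add_one_le_exp (-(2 - (4 * K.toReal + 4) / 2))
    linarith
  set η := exp (-(3 * R / 2)) with hη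
  have η0 : 0 < η := exp_pos _
  have η1 : η < 1 := exp_lt_one_iff.2 (by linarith)
  refine ⟨-R, -R + η, R - 1, R, by linarith, by linarith, by linarith, fun f hf => ?_⟩
  have hS : MeasurableSet (Icc (-R) (-R + η) ∪ Icc (R - 1) R) :=
    measurableSet_Icc.union measurableSet_Icc
  have hp : polar f = fun y => ENNReal.ofReal (exp (-(R * |y|))) := by
    ext y
    rw [hf]
    refine polar_ind _ R (Or.inr ⟨by linarith, le_rfl⟩) (Or.inl ⟨le_rfl, by linarith⟩) ?_ y
    rintro x (hx | hx) <;> exact abs_le.2 ⟨by linarith [hx.1], by linarith [hx.2]⟩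
  have hint := integrable_inv_one_add_sq.const_mul 2
  refine ⟨?_, ?_, ?_, ?_, log 2, log R, log_pos one_lt_two, log_lt_log two_pos (by linarith), ?_⟩
  · rw [hp, lintegral_pos_iff_support (by fun_prop)]
    have : (Function.support fun y => ENNReal.ofReal (exp (-(R * |y|)))) = univ :=
      eq_univ_of_forall fun y => by simp [exp_pos]
    simp [this]
  · rw [hp]
    refine Integrable.lintegral_lt_top (hint.mono' (by fun_prop) (ae_of_all _ fun y => ?_))
    have := decay R y (by linarith)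
    rw [norm_of_nonneg (exp_pos _).le]
    nlinarith [mul_nonneg (abs_nonneg y) (exp_pos (-(R * |y|))).le]
  · simp only [hp, ENNReal.toReal_ofReal (exp_pos _).le]
    refine hint.mono' (by fun_prop) (ae_of_all _ fun y => ?_)
    have := decay R y (by linarith)
    rw [norm_mul, norm_of_nonneg (exp_pos _).le, norm_eq_abs]
    nlinarith [exp_pos (-(R * |y|))]
  · simp only [hp]
    have := integral_neg_eq_self (fun y => y * (ENNReal.ofReal (exp (-(R * |y|)))).toReal) volume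
    simp only [abs_neg, neg_mul, integral_neg] at this
    linarith
  have hfm : Measurable f := hf ▸ measurable_one.indicator hS
  have R0 : 0 < R := by linarith
  rw [vp, vp, mass f hfm _ (log_pos one_lt_two), mass f hfm _ (log_pos (by linarith))]
  have hm : ∫⁻ x, f x = volume (Icc (-R) (-R + η) ∪ Icc (R - 1) R) := by
    rw [hf, lintegral_indicator_one hS]
  refine ENNReal.mul_lt_mul_right ?_ ?_ ?_
  · rw [hm]
    refine ne_of_gt (lt_of_lt_of_le ?_ (measure_mono subset_union_right))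
    simp
  · rw [hm]
    exact (measure_union_lt_top (by simp) (by simp)).ne
  refine lt_of_le_of_lt (lintegral_mono fun y => ?_) (hRK.trans_le ?_)
  · have e1 : exp (-log R) = R⁻¹ := by rw [exp_neg, exp_log R0]
    have e2 : exp (-2 * log R) = R⁻¹ * R⁻¹ := by rw [← e1, ← exp_add]; ring_nf
    have r1 : R⁻¹ ≤ 3⁻¹ := inv_anti₀ (by norm_num) hR
    have r0 : 0 < R⁻¹ := by positivity
    have r2 : R⁻¹ * R⁻¹ ≤ 3⁻¹ * 3⁻¹ := by gcongr
    have hv : (((1 - exp (-2 * log R)).toNNReal : ℝ≥0) : ℝ) = 1 - R⁻¹ * R⁻¹ := by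
      rw [e2, coe_toNNReal _ (by linarith)]
    refine (polar_le _ (y / 4) y (3⁻¹ * exp (-2 * ((y / 4) ^ 2 + 1))) (by positivity) ?_).trans
      (ENNReal.ofReal_le_ofReal (le_of_eq ?_))
    · rw [hf, flow_ind _ hS]
      refine le_trans ?_ (lintegral_mono_set subset_union_right)
      refine le_trans ?_ (setLIntegral_mono' measurableSet_Icc
        (f := fun _ => ENNReal.ofReal (3⁻¹ * exp (-2 * ((y / 4) ^ 2 + 1)))) fun u hu => ?_)
      · simp
      · refine ENNReal.ofReal_le_ofReal (pdf_ge _ _ _ (by rw [hv]; linarith)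
          (by rw [hv]; nlinarith) ?_)
        have : R⁻¹ * u ≤ 1 := by rw [inv_mul_le_iff₀ R0]; linarith [hu.2]
        have : 0 ≤ R⁻¹ * u := mul_nonneg r0.le (by linarith [hu.1])
        rw [e1]
        nlinarith
    · rw [div_eq_iff (by positivity), mul_assoc 3, mul_mul_mul_comm, ← exp_add, ← exp_add]
      norm_num
      ring
  · have e1 : exp (-log 2) = 2⁻¹ := by rw [exp_neg, exp_log two_pos]
    have e2 : exp (-2 * log 2) = 2⁻¹ * 2⁻¹ := by rw [← e1, ← exp_add]; ring_nf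
    have hv : (((1 - exp (-2 * log 2)).toNNReal : ℝ≥0) : ℝ) = 3 / 4 := by
      rw [e2, coe_toNNReal _ (by norm_num)]
      norm_num
    refine le_trans ?_ (setLIntegral_le_lintegral (Icc (-2) (-1)) _)
    refine le_trans ?_ (setLIntegral_mono' measurableSet_Icc
      (f := fun _ => ENNReal.ofReal (2 * exp (2 - R / 2))⁻¹) fun y hy => ?_)
    · norm_num
    refine polar_ge _ _ _ (by positivity) fun x => ?_
    have y2 : y ^ 2 ≤ 4 := by nlinarith [hy.1, hy.2]
    rw [hf, flow_ind _ hS, e1]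
    refine (lintegral_union_le _ _ _).trans ((add_le_add
      (setLIntegral_mono' measurableSet_Icc
        (g := fun _ => ENNReal.ofReal (exp (-(x * y)) * exp (R + 2))) fun u hu => ?_)
      (setLIntegral_mono' measurableSet_Icc
        (g := fun _ => ENNReal.ofReal (exp (-(x * y)) * exp (2 - R / 2))) fun u hu => ?_)).trans
          (le_of_eq ?_))
    · refine ENNReal.ofReal_le_ofReal ((pdf_le _ _ y _ hv y2).trans ?_)
      refine mul_le_mul_of_nonneg_left (exp_le_exp.2 ?_) (exp_pos _).le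
      nlinarith [hu.1, hu.2, hy.1, hy.2]
    · refine ENNReal.ofReal_le_ofReal ((pdf_le _ _ y _ hv y2).trans ?_)
      refine mul_le_mul_of_nonneg_left (exp_le_exp.2 ?_) (exp_pos _).le
      nlinarith [hu.1, hu.2, hy.1, hy.2]
    · rw [setLIntegral_const, setLIntegral_const, volume_Icc, volume_Icc,
        ← ENNReal.ofReal_mul (by positivity), ← ENNReal.ofReal_mul (by positivity),
        ← ENNReal.ofReal_add (by rw [add_sub_cancel_left]; positivity)
          (by rw [sub_sub_cancel]; positivity), add_sub_cancel_left, sub_sub_cancel, hη,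
        mul_assoc, ← exp_add]
      congr 1
      ring_nf

end Pool.Agent.Results.MP_31abd3_an.Counter
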